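import Pool.Agent.Run7.h206.Casimir

/-!
Irreducibility of the associated variety of a simple quasi-lisse conformal vertex algebra whose
moment map to a product of copies of the dual of `sl_2` is finite.
-/

open Run7.h206 VertexAlgebra

universe u

/-- Let `V` be a simple conformal vertex algebra (no positivity of the conformal grading is assumed)
with `R_V` finitely generated and non-zero, having only finitely many Poisson prime ideals (true
when `X_V` has finitely many symplectic leaves).  Suppose that `V` contains `m` pairwise commuting
`sl_2`-triples of weight one whose classes generate a subalgebra over which `R_V` is integral, i.e.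
the moment map `X_V → (sl_2^*)^m` is finite.  Then `X_V = Specm R_V` is irreducible.  For `m = 0`
this is the case where `R_V` is finite dimensional (lisse vertex algebras). -/
theorem Pool.Agent.Results.MP_1f8451_al.FiniteMomentSl2.result
    {V : Type u} [AddCommGroup V] [Module ℂ V] [VertexAlgebra V] (C : ConformalVector V)
    (hs : IsSimple V) (hfg : Algebra.FiniteType ℂ (RV V)) (hR : Nontrivial (RV V))
    (hql : {P : Ideal (RV V) | P.IsPrime ∧ IsPoissonIdeal P}.Finite)
    (m : ℕ) (t : Sl2Family C (Fin m)) (ht : t.FiniteMoment) :
    IrreducibleSpace (MaximalSpectrum (RV V)) :=
  Sl2Family.irreducible hs hfg hR ht hql
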