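import Pool.Agent.Run7.h206.Simple

/-!
In a simple conformal vertex algebra every element that is not nilpotent in `R_V` acts injectively.
-/

open Run7.h206 VertexAlgebra

universe u

/-- Let `V` be a simple conformal vertex algebra and `b` a vector whose class in `R_V` is not
nilpotent, i.e. `b` does not vanish identically on the spectrum of `R_V`.  Then for every non-zero
vector `x` there is a step `F^p V` of the Li filtration containing none of the vectors
`b_(-1)^M x`, `M = 0, 1, 2, ...`.  In particular `b_(-1)` is injective. -/
theorem Pool.Agent.Results.MP_1f8451_al.InjectiveOrNilpotent.result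
    {V : Type u} [AddCommGroup V] [Module ℂ V] [VertexAlgebra V] (C : ConformalVector V)
    (hs : IsSimple V) (b : V) (hb : ¬ IsNilpotent (cl b)) :
    (∀ x : V, x ≠ 0 → ∃ p : ℕ, ∀ M : ℕ, ((nprod (-1) b)^[M]) x ∉ F V p) ∧
      Function.Injective (nprod (-1) b : V → V) := by
  have hop : ∀ y : V, op (b, 0) y = nprod (-1) b y := fun y => by simp [op_apply]
  have hit : ∀ (M : ℕ) (x : V), (op (b, 0) ^ M) x = ((nprod (-1) b)^[M]) x := by
    intro M
    induction M with
    | zero => intro x; simp
    | succ M ih =>
      intro x
      rw [pow_succ', Module.End.mul_apply, ih, Function.iterate_succ_apply', hop]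
  constructor
  · intro x hx
    obtain ⟨p, hp⟩ := not_converge C hs hb hx
    exact ⟨p, fun M => by rw [← hit]; exact hp M⟩
  · intro x y hxy
    exact op_injective C hs hb (by rw [hop, hop]; exact hxy)
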