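import Pool.Agent.Run7.h206.Free

/-!
Irreducibility of the associated variety of a quasi-lisse vertex algebra of CFT type whose Zhu
algebra has no non-zero nilpotent element of conformal weight two (for instance, is reduced).
-/

open Run7.h206 VertexAlgebra

universe u

/-- Let `V` be a vertex algebra over `ℂ` with a conformal vector, graded by `L_0` with weights in
`ℕ/2` and with `V_0 = ℂ 1 ≠ 0`.  Suppose that `R_V` has only finitely many Poisson prime ideals
(true when `X_V` has finitely many symplectic leaves) and no non-zero nilpotent element of weight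
two.  Then `X_V = Specm R_V` is irreducible; more precisely `V` is generated by its subspace
`V_{1/2}` and `R_V` is the polynomial ring on (the classes of) any basis of `V_{1/2}`. -/
theorem Pool.Agent.Results.MP_1f8451_al.ReducedCase.result
    {V : Type u} [AddCommGroup V] [Module ℂ V] [VertexAlgebra V] (C : ConformalVector V)
    (hgr : ⨆ n : ℕ, C.wt ((n : ℂ) / 2) = ⊤)
    (h0 : C.wt 0 = Submodule.span ℂ {vac}) (hne : (vac : V) ≠ 0)
    (hql : {P : Ideal (RV V) | P.IsPrime ∧ IsPoissonIdeal P}.Finite)
    (hred : ∀ x ∈ C.wt 2, IsNilpotent (cl x) → cl x = 0) :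
    IrreducibleSpace (MaximalSpectrum (RV V)) ∧ GenSub (C.wt (1 / 2)) = ⊤ ∧
      ∀ (ι : Type u) (b : Module.Basis ι ℂ (C.wt (1 / 2))),
        Function.Bijective (MvPolynomial.aeval (fun i => cl (b i : V)) :
          MvPolynomial ι ℂ →ₐ[ℂ] RV V) := by
  have hω : C.omega ∈ C2 V :=
    cl_eq_zero.1 (hred _ (wt_omega C) (omega_nilpotent C hgr hql))
  refine ⟨?_, gen_half C hgr h0 hω, fun ι b => RV_poly C hgr h0 hne hω b⟩
  have b := Module.Basis.ofVectorSpace ℂ (C.wt (1 / 2))
  have hb := RV_poly C hgr h0 hne hω b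
  set φ : MvPolynomial _ ℂ →ₐ[ℂ] RV V := MvPolynomial.aeval (fun i => cl (b i : V)) with hφ
  let e := AlgEquiv.ofBijective φ hb
  have hdom : IsDomain (RV V) := MulEquiv.isDomain _ e.symm.toMulEquiv
  refine irreducible_maxSpec fun f hf => ?_
  have h1 : e.symm f ≠ 0 := by
    intro h
    exact hf (by simpa using h)
  obtain ⟨c, hc⟩ : ∃ c, MvPolynomial.eval c (e.symm f) ≠ 0 := by
    by_contra hall
    push Not at hall
    exact h1 (MvPolynomial.funext fun c => by rw [hall c, map_zero])
  let ψ : RV V →+* ℂ := (MvPolynomial.eval c).comp (e.symm : RV V →+* MvPolynomial _ ℂ)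
  have hψ : Function.Surjective ψ := by
    intro z
    refine ⟨e (MvPolynomial.C z), ?_⟩
    simp [ψ]
  exact ⟨RingHom.ker ψ, RingHom.ker_isMaximal_of_surjective ψ hψ, fun h => hc h⟩
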