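import Pool.Agent.Run7.h206.Grade

/-!
The weight-zero functions on the associated variety of a simple vertex algebra form a domain, and
the associated variety is connected.
-/

open Run7.h206 VertexAlgebra

universe u

/-- Let `V` be a simple conformal vertex algebra with `R_V` finitely generated and non-zero, and `H`
a Hamiltonian of `V` (for instance `L_0`, or `L_0 - x_(0)` with `x` of weight one and `x_(0)`
diagonalizable) such that all elements of `R_V` of weight with negative real part are nilpotent.
Then the weight-zero part of `R_V` modulo nilpotents has no zero divisors, every idempotent of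
`R_V` is trivial, and `Spec R_V` is connected. -/
theorem Pool.Agent.Results.MP_1f8451_al.WeightZero.result
    {V : Type u} [AddCommGroup V] [Module ℂ V] [VertexAlgebra V] (C : ConformalVector V)
    (hs : IsSimple V) (hfg : Algebra.FiniteType ℂ (RV V)) (hR : Nontrivial (RV V))
    (h : Hamiltonian V)
    (hneg : ∀ μ : ℂ, μ.re < 0 → ∀ a ∈ h.H.eigenspace μ, IsNilpotent (cl a)) :
    (∀ x ∈ Submodule.map cl (LinearMap.ker h.H), ∀ y ∈ Submodule.map cl (LinearMap.ker h.H),
      IsNilpotent (x * y) → IsNilpotent x ∨ IsNilpotent y) ∧
    (∀ e : RV V, IsIdempotentElem e → e = 0 ∨ e = 1) ∧ ConnectedSpace (PrimeSpectrum (RV V)) := by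
  have h1 : ∀ x ∈ Submodule.map cl (LinearMap.ker h.H), ∀ y ∈ Submodule.map cl (LinearMap.ker h.H),
      IsNilpotent (x * y) → IsNilpotent x ∨ IsNilpotent y := by
    rintro _ ⟨a, ha, rfl⟩ _ ⟨b, hb, rfl⟩ hab
    exact weight_zero_domain C hs hfg h hneg (LinearMap.mem_ker.1 ha) (LinearMap.mem_ker.1 hb) hab
  have h2 : ∀ e : RV V, IsIdempotentElem e → e = 0 ∨ e = 1 := by
    intro e he
    -- idempotents have weight zero
    have he' : e * e = e := he
    have h3 : HR h e = 0 := by
      have h4 : HR h e = e * HR h e + e * HR h e := by
        conv_lhs => rw [← he', Derivation.leibniz, smul_eq_mul]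
      have h5 : e * HR h e = 0 := by
        have h6 : e * HR h e = e * HR h e + e * HR h e := by
          conv_lhs => rw [h4, mul_add, ← mul_assoc, he']
        have h7 := congrArg (fun z => z - e * HR h e) h6
        simpa using h7.symm
      rw [h4, h5, add_zero]
    obtain ⟨a, rfl⟩ := cl_surj e
    obtain ⟨π, p1, p2, p3, p4⟩ := exists_proj h.H h.diagonalizable
    obtain ⟨s, hs1, hs2⟩ := p4 a
    -- all components of non-zero weight vanish in `R_V`
    have h8 : cl a = cl (π 0 a) := by
      have h9 : cl (a - π 0 a) = 0 := by
        have h10 := comp_mem (HRlin h) ⊥ (fun x hx => by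
          have : x = 0 := by simpa using hx
          rw [this]; simp) s (fun μ => μ • cl (π μ a)) (fun μ _ => by
            refine Submodule.smul_mem _ _ ?_
            rw [Module.End.mem_eigenspace_iff, HRlin_cl, Module.End.mem_eigenspace_iff.1 (p3 μ a),
              map_smul]) (by
            have h11 : ∑ μ ∈ s, μ • cl (π μ a) = HR h (cl a) := by
              conv_rhs => rw [← hs2]
              rw [HR_cl, map_sum, map_sum]
              refine Finset.sum_congr rfl fun μ _ => ?_
              rw [Module.End.mem_eigenspace_iff.1 (p3 μ a), map_smul]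
            rw [h11, h3]; exact Submodule.zero_mem _)
        have h12 : ∀ μ ∈ s, μ ≠ 0 → cl (π μ a) = 0 := by
          intro μ hμ hμ0
          have h13 := h10 μ hμ
          rw [Submodule.mem_bot] at h13
          exact (smul_eq_zero.1 h13).resolve_left hμ0
        classical
        by_cases h0 : (0 : ℂ) ∈ s
        · have h14 : a - π 0 a = ∑ μ ∈ s.erase 0, π μ a := by
            conv_lhs => rw [← hs2]
            rw [← Finset.add_sum_erase s (fun μ => π μ a) h0, map_add, p1 0 _ (p3 0 a), map_sum,
              Finset.sum_eq_zero (s := s.erase 0) (f := fun μ => π 0 (π μ a))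
                (fun μ hμ => p2 0 μ _ (Finset.ne_of_mem_erase hμ).symm (p3 μ a))]
            abel
          rw [h14, map_sum]
          exact Finset.sum_eq_zero fun μ hμ =>
            h12 μ (Finset.mem_of_mem_erase hμ) (Finset.ne_of_mem_erase hμ)
        · rw [hs1 0 h0, sub_zero, ← hs2, map_sum]
          exact Finset.sum_eq_zero fun μ hμ => h12 μ hμ (fun h => h0 (h ▸ hμ))
      rw [map_sub, sub_eq_zero] at h9
      exact h9
    have hk : ∀ x : V, h.H x = 0 → cl x ∈ Submodule.map cl (LinearMap.ker h.H) := fun x hx =>
      ⟨x, LinearMap.mem_ker.2 hx, rfl⟩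
    have h0a : h.H (π 0 a) = 0 := by
      have := Module.End.mem_eigenspace_iff.1 (p3 0 a)
      rwa [zero_smul] at this
    have hx1 := hk _ h0a
    rw [← h8] at hx1
    have hx2 : (1 : RV V) - cl a ∈ Submodule.map cl (LinearMap.ker h.H) := by
      refine Submodule.sub_mem _ ?_ hx1
      rw [one_eq]; exact hk _ h.vac
    have hidem : ∀ z : RV V, z * z = z → IsNilpotent z → z = 0 := by
      rintro z hz ⟨n, hn⟩
      have h15 : ∀ k : ℕ, z ^ (k + 1) = z := by
        intro k
        induction k with
        | zero => simp
        | succ k ih => rw [pow_succ, ih, hz]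
      rcases n with _ | n
      · rw [pow_zero] at hn; exact absurd hn one_ne_zero
      · rw [← h15 n, hn]
    rcases h1 _ hx1 _ hx2 (by
      have : cl a * (1 - cl a) = 0 := by rw [mul_sub, mul_one, he', sub_self]
      rw [this]; exact IsNilpotent.zero) with h16 | h16
    · exact Or.inl (hidem _ he' h16)
    · right
      have h17 := hidem (1 - cl a) (by
        have : (1 - cl a) * (1 - cl a) = 1 - cl a - cl a + cl a * cl a := by ring
        rw [this, he']; ring) h16
      exact (sub_eq_zero.1 h17).symm
  refine ⟨h1, h2, ?_⟩
  have hne : Nonempty (PrimeSpectrum (RV V)) := inferInstance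
  have hpre : PreconnectedSpace (PrimeSpectrum (RV V)) := by
    rw [preconnectedSpace_iff_clopen]
    intro s hs
    obtain ⟨e, he, rfl⟩ := PrimeSpectrum.isClopen_iff.1 hs
    rcases h2 e he with rfl | rfl
    · left; simp
    · right; simp
  exact { toPreconnectedSpace := hpre, toNonempty := hne }
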